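import Mathlib

set_option autoImplicit false

namespace Pool.Agent.Results.MP_64d5df_nt.GapNotMonotone

/-- distance from a real number to the nearest integer -/
noncomputable def distZ (x : ℝ) : ℝ := |x - round x|

/-- loneliness gap of a finite set of speeds: supremum over real t of the minimum over v in V
of the distance from t v to the nearest integer -/
noncomputable def kappa (V : Finset ℕ) : ℝ :=
  sSup {g : ℝ | ∃ t : ℝ, g = sInf {d : ℝ | ∃ v ∈ V, d = distZ (t * v)}}

lemma distZ_le (x : ℝ) (m : ℤ) : distZ x ≤ |x - m| := round_le x m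

lemma distZ_nonneg (x : ℝ) : 0 ≤ distZ x := abs_nonneg _

lemma distZ_half (x : ℝ) : distZ x ≤ 1 / 2 := abs_sub_round x

lemma bdd (V : Finset ℕ) (t : ℝ) : BddBelow {d : ℝ | ∃ v ∈ V, d = distZ (t * v)} :=
  ⟨0, by rintro d ⟨v, _, rfl⟩; exact distZ_nonneg _⟩

lemma key (s : ℝ) : distZ s ≤ 1 / 3 ∨ distZ (2 * s) ≤ 1 / 3 := by
  by_cases h : distZ s ≤ 1 / 3
  · exact Or.inl h
  right
  have h1 := distZ_half s
  unfold distZ at h h1
  rcases abs_cases (s - round s) with ⟨e, _⟩ | ⟨e, _⟩
  · refine le_trans (distZ_le _ (2 * round s + 1)) ?_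
    push_cast
    rw [abs_le]; constructor <;> linarith
  · refine le_trans (distZ_le _ (2 * round s - 1)) ?_
    push_cast
    rw [abs_le]; constructor <;> linarith

theorem result : ∃ (n : ℕ) (V : Finset ℕ) (a : ℕ), 1 ≤ n ∧ V.card = n ∧ (∀ v ∈ V, 0 < v) ∧ 0 < a ∧
    kappa (V.image fun v => a + v) < kappa V := by
  refine ⟨2, {1, 3}, 1, by norm_num, by decide, by simp, by norm_num, ?_⟩
  have h1 : kappa (({1, 3} : Finset ℕ).image fun v => 1 + v) ≤ 1 / 3 := by
    unfold kappa
    refine csSup_le ⟨_, 0, rfl⟩ ?_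
    rintro g ⟨t, rfl⟩
    rcases key (t * 2) with h | h
    · exact le_trans (csInf_le (bdd _ t) ⟨2, by simp, by norm_num⟩) h
    · refine le_trans (csInf_le (bdd _ t) ⟨4, by simp, ?_⟩) h
      congr 1
      push_cast
      ring
  have h2 : (1 / 2 : ℝ) ≤ kappa {1, 3} := by
    apply le_csSup_of_le (b := sInf {d : ℝ | ∃ v ∈ ({1, 3} : Finset ℕ), d = distZ (1 / 2 * v)})
    · refine ⟨1 / 2, ?_⟩
      rintro g ⟨t, rfl⟩
      exact le_trans (csInf_le (bdd _ t) ⟨1, by simp, rfl⟩) (distZ_half _)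
    · exact ⟨1 / 2, rfl⟩
    · refine le_csInf ⟨_, 1, by simp, rfl⟩ ?_
      rintro d ⟨v, hv, rfl⟩
      simp only [Finset.mem_insert, Finset.mem_singleton] at hv
      rcases hv with rfl | rfl
      · have : round ((1 / 2 : ℝ) * (1 : ℕ)) = 1 := by
          rw [round_eq, Int.floor_eq_iff]; norm_num
        unfold distZ
        rw [this]; norm_num [abs_of_nonpos]
      · have : round ((1 / 2 : ℝ) * (3 : ℕ)) = 2 := by
          rw [round_eq, Int.floor_eq_iff]; norm_num
        unfold distZ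
        rw [this]; norm_num [abs_of_nonpos]
  linarith

end Pool.Agent.Results.MP_64d5df_nt.GapNotMonotone
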